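import Pool.Agent.Helper42.FR.Stmts

/-!
# Upper bound for the least rank (row HI)
-/

set_option autoImplicit false

namespace Pool.Agent.Helper74.FR

open Matrix Pool.Agent.Helper81.Fmr Pool.Agent.Helper42.FR

universe u

theorem rk_sum {F : Type u} [Field F] {I J L : Type} [Fintype I] [Fintype J]
    (B : L → Matrix I J F) (r : ℕ) (hB : ∀ l, (B l).rank ≤ r) (s : Finset L) :
    (∑ l ∈ s, B l).rank ≤ s.card * r := by
  classical
  induction s using Finset.induction_on with
  | empty => simp
  | insert a s ha ih =>
    rw [Finset.sum_insert ha, Finset.card_insert_of_notMem ha]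
    refine le_trans (rank_add_le' _ _) ?_
    have h1 := hB a
    have h2 : (s.card + 1) * r = s.card * r + r := by ring
    omega

theorem rk_mask {F : Type u} [Field F] {I J I' J' : Type} [Fintype I] [Fintype J] [Fintype I']
    [Fintype J'] (N : Matrix I J F) (f : I' → I) (g : J' → J) (p : I' → Prop) (q : J' → Prop)
    [DecidablePred p] [DecidablePred q] :
    (Matrix.of fun x y => if p x ∧ q y then N (f x) (g y) else 0 : Matrix I' J' F).rank ≤
      N.rank := by
  classical
  have h : (Matrix.of fun x y => if p x ∧ q y then N (f x) (g y) else 0 : Matrix I' J' F) =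
      diagonal (fun x => if p x then (1 : F) else 0) * N.submatrix f g *
        diagonal (fun y => if q y then (1 : F) else 0) := by
    ext x y
    rw [Matrix.mul_diagonal, Matrix.diagonal_mul]
    by_cases hp : p x <;> by_cases hq : q y <;> simp [hp, hq]
  rw [h]
  exact le_trans (rank_mul_le_left _ _) (le_trans (rank_mul_le_right _ _)
    (rank_submatrix_le _ _ _))

theorem st_HI (F : Type u) [Field F] : ST_HI F := by
  intro V μ dV fV fμ S v K b N hN
  classical
  set z := blk N (Sum.inr (some (v, 1))) (Sum.inl 2) with hz
  let R := Fin 3 ⊕ Option (V × Fin 3)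
  let Q := Fin 3 ⊕ ((V × Bool) ⊕ μ)
  let f : (Fin K × R) × Fin b → R × Fin b := fun x => (x.1.2, x.2)
  let g : Option (Fin K × Q) × Fin b → Q × Fin b := fun y =>
    (match y.1 with
      | some w => w.2
      | none => Sum.inl 2, y.2)
  let B : Fin K → Matrix ((Fin K × R) × Fin b) (Option (Fin K × Q) × Fin b) F := fun l =>
    Matrix.of fun x y => if x.1.1 = l ∧ (∀ w, y.1 = some w → w.1 = l) then N (f x) (g y) else 0
  let C : Matrix ((Fin K × R) × Fin b) (Option (Fin K × Q) × Fin b) F :=
    Matrix.of fun x y => if x.1.2 = Sum.inr (some (v, 1)) ∧ y.1 = none then (-z) x.2 y.2 else 0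
  have hB : ∀ l, (B l).rank ≤ N.rank := fun l =>
    rk_mask N f g (fun x => x.1.1 = l) (fun y => ∀ w, y.1 = some w → w.1 = l)
  have hC : C.rank ≤ z.rank := by
    have h1 := rk_mask (-z) (fun x : (Fin K × R) × Fin b => x.2)
      (fun y : Option (Fin K × Q) × Fin b => y.2)
      (fun x => x.1.2 = Sum.inr (some (v, 1))) (fun y => y.1 = none)
    have h2 : (-z).rank ≤ z.rank := by
      rw [← neg_one_mul z]
      exact rank_mul_le_right _ _
    exact h1.trans h2
  have hS := rk_sum B N.rank hB Finset.univ
  rw [Finset.card_univ, Fintype.card_fin] at hS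
  have hBs : ∀ x y, (∑ l, B l) x y =
      if (∀ w, y.1 = some w → w.1 = x.1.1) then N (f x) (g y) else 0 := by
    intro x y
    rw [Matrix.sum_apply, Finset.sum_eq_single x.1.1]
    · simp [B]
    · intro l _ hl
      simp only [B, Matrix.of_apply]
      rw [if_neg]
      rintro ⟨h, _⟩
      exact hl h.symm
    · intro h
      exact absurd (Finset.mem_univ _) h
  refine le_trans (Nat.sInf_le ⟨(∑ l, B l) + C, ?_, rfl⟩)
    (le_trans (rank_add_le' _ _) (add_le_add hS hC))
  rintro ⟨l, i⟩ j a h k c
  rw [Matrix.add_apply, hBs]
  rcases j with _ | ⟨l', j'⟩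
  · have h0 : (∀ w : Fin K × Q, (none : Option (Fin K × Q)) = some w → w.1 = l) := by
      intro w hw
      exact absurd hw (by simp)
    simp only [f, g]
    rw [if_pos h0]
    rcases i with i | _ | ⟨w, e⟩
    · simp only [tot, Option.some.injEq] at h
      subst h
      have h1 := hN (Sum.inl i) (Sum.inl 2) _ rfl k c
      rw [h1]
      simp [C]
    · simp [tot] at h
    · fin_cases e
      · simp [tot] at h
      · by_cases hw : w = v
        · subst hw
          have ha : a = 0 := by simpa [tot, eq_comm] using h
          subst ha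
          simp [C, hz, blk]
        · simp [tot, hw] at h
      · simp [tot] at h
  · have hC0 : C ((l, i), k) (some (l', j'), c) = 0 := by simp [C]
    rw [hC0, add_zero]
    simp only [f, g]
    by_cases hl : l = l'
    · subst hl
      rw [if_pos (by intro w hw; simp only [Option.some.injEq] at hw; rw [← hw])]
      have h1 : pm S i j' = some a := by simpa [tot] using h
      exact hN i j' a h1 k c
    · rw [if_neg (by intro hw; exact hl (hw _ rfl).symm)]
      have ha : a = 0 := by simpa [tot, hl, eq_comm] using h
      simp [ha]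

end Pool.Agent.Helper74.FR
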