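import Pool.Agent.Helper51.FR.UPa

/-!
# Row UP, concrete part
-/

set_option autoImplicit false

namespace Pool.Agent.Helper74.FR

open Matrix Pool.Agent.Helper81.Fmr Pool.Agent.Helper42.FR Pool.Agent.Helper51.FR

universe u

section
variable {Y : Type} [DecidableEq Y] {q : ℕ}

def upd (a b : Y) (y : Y → Fin q) (u : Fin q × Fin q) : Y → Fin q :=
  fun c => if c = a then u.1 else if c = b then u.2 else y c

theorem upd_a (a b : Y) (y : Y → Fin q) (u : Fin q × Fin q) : upd a b y u a = u.1 := by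
  simp [upd]

theorem upd_b (a b : Y) (h : a ≠ b) (y : Y → Fin q) (u : Fin q × Fin q) :
    upd a b y u b = u.2 := by
  simp [upd, Ne.symm h]

theorem upd_c (a b c : Y) (h1 : c ≠ a) (h2 : c ≠ b) (y : Y → Fin q) (u : Fin q × Fin q) :
    upd a b y u c = y c := by
  simp [upd, h1, h2]

theorem upd_upd (a b : Y) (y : Y → Fin q) (u v : Fin q × Fin q) :
    upd a b (upd a b y u) v = upd a b y v := by
  funext c
  simp only [upd]
  split_ifs <;> rfl

theorem upd_self (a b : Y) (y : Y → Fin q) : upd a b y (y a, y b) = y := by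
  funext c
  simp only [upd]
  split_ifs with h1 h2
  · rw [h1]
  · rw [h2]
  · rfl

def Hab (H0 : Equiv.Perm (Fin q × Fin q)) (a b : Y) (h : a ≠ b) : Equiv.Perm (Y → Fin q) where
  toFun y := upd a b y (H0 (y a, y b))
  invFun y := upd a b y (H0.symm (y a, y b))
  left_inv y := by
    show upd a b (upd a b y (H0 (y a, y b))) (H0.symm (upd a b y (H0 (y a, y b)) a,
      upd a b y (H0 (y a, y b)) b)) = y
    rw [upd_upd, upd_a, upd_b a b h]
    simp [upd_self]
  right_inv y := by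
    show upd a b (upd a b y (H0.symm (y a, y b))) (H0 (upd a b y (H0.symm (y a, y b)) a,
      upd a b y (H0.symm (y a, y b)) b)) = y
    rw [upd_upd, upd_a, upd_b a b h]
    simp [upd_self]

end

theorem core2 (F : Type u) [Field F] (G Y : Type) [Fintype G] [DecidableEq G] [Fintype Y]
    [DecidableEq Y] (s t : Equiv.Perm G) (x : G → Y) (badG : Finset G)
    (hx : ∀ g : G, g ∉ badG →
      x g ≠ x (s g) ∧ x g ≠ x (s⁻¹ g) ∧ x (s g) ≠ x (s⁻¹ g) ∧
      x (s (t g)) = x g ∧ x (s (s (t g))) = x (s g) ∧ x (s⁻¹ (t g)) = x (s⁻¹ g) ∧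
      x (s⁻¹ (s⁻¹ (t (s (t⁻¹ g))))) = x (s⁻¹ g) ∧
      s⁻¹ (t (s (t⁻¹ (s (t g))))) = s (t (s⁻¹ (t (s (t⁻¹ g))))))
    (q k : ℕ) (H0 : Equiv.Perm (Fin q × Fin q)) (A : Fin 5 → Finset (Fin q × Fin q))
    (a0 : ∀ y, y ∈ A 0 ↔ (y.1 : ℕ) < k) (a1 : ∀ y, H0 y ∈ A 1 ↔ y ∈ A 0)
    (a2 : ∀ y, H0 y ∈ A 2 ↔ y ∈ A 1) (a3 : ∀ y, H0 y ∈ A 3 ↔ y ∈ A 2)
    (a4 : ∀ y, H0 (H0 (H0 (H0 y))) ∈ A 4 ↔ ((y.1 : ℕ) < k ∧ (y.2 : ℕ) < k))
    (ad : ∀ i j, i ≠ j → Disjoint (A i) (A j))
    (ac : (Finset.univ \ (Finset.univ.biUnion A)).card ≤ 1) :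
    ∃ z : Vr → Matrix (Fin (Fintype.card (G × (Y → Fin q))))
        (Fin (Fintype.card (G × (Y → Fin q)))) F,
      (∀ i a, (SY F).k i = some a → z i = a • 1) ∧
      q * (z .e).rank ≤ k * Fintype.card (G × (Y → Fin q)) ∧
      ∃ bad' : Finset (Fin (Fintype.card (G × (Y → Fin q)))), ∃ m₁ m₂ : ℕ,
        bad'.card ≤ m₁ * Fintype.card (Y → Fin q) + m₂ ∧ m₁ ≤ badG.card ∧
        q * q * m₂ ≤ Fintype.card (G × (Y → Fin q)) ∧
      (∀ m, ∀ c, c ∉ bad' → ∀ a, (z ((SY F).l m) * z ((SY F).r m)) a c = z ((SY F).o m) a c) ∧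
      (∀ i j a, i ≠ j → (SY F).d i j = some a → z i - z j = a • 1) := by
  classical
  let Z := G × (Y → Fin q)
  let S : Equiv.Perm Z := Equiv.prodCongr s (Equiv.refl _)
  let T : Equiv.Perm Z := Equiv.prodCongr t (Equiv.refl _)
  let Hg : G → Equiv.Perm (Y → Fin q) := fun g =>
    if h : x g ≠ x (s g) then Hab H0 (x g) (x (s g)) h else 1
  let H : Equiv.Perm Z := Equiv.prodShear (Equiv.refl G) Hg
  let P : Z → Fin q × Fin q := fun c => (c.2 (x c.1), c.2 (x (s c.1)))
  let W : Z → F := fun c => if (c.2 (x c.1) : ℕ) < k then 1 else 0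
  let B1 : Finset Z := badG ×ˢ Finset.univ
  let B2 : Finset Z := Finset.univ.filter (fun c => x c.1 ≠ x (s c.1) ∧
    P c ∉ Finset.univ.biUnion A)
  have hPH : ∀ c : Z, x c.1 ≠ x (s c.1) → P (H⁻¹ c) = H0⁻¹ (P c) := by
    rintro ⟨g, y⟩ hg
    have h1 : H⁻¹ (g, y) = (g, (Hg g).symm y) := rfl
    have h2 : Hg g = Hab H0 (x g) (x (s g)) hg := dif_pos hg
    rw [h1, h2]
    show (upd (x g) (x (s g)) y (H0.symm (y (x g), y (x (s g)))) (x g),
      upd (x g) (x (s g)) y (H0.symm (y (x g), y (x (s g)))) (x (s g))) = _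
    rw [upd_a, upd_b _ _ hg]
    rfl
  have hH1 : ∀ c : Z, (H⁻¹ c).1 = c.1 := fun c => rfl
  have hWP : ∀ c : Z, W c = if ((P c).1 : ℕ) < k then 1 else 0 := fun c => rfl
  have hWS : ∀ c : Z, W (S c) = if ((P c).2 : ℕ) < k then 1 else 0 := fun c => rfl
  have hEW : ∀ c : Z, x c.1 ≠ x (s c.1) → ∀ i, EW S H W i c = if P c ∈ A i then 1 else 0 := by
    intro c hc
    have p1 := hPH c hc
    have p2 := hPH (H⁻¹ c) hc
    have p3 := hPH (H⁻¹ (H⁻¹ c)) hc
    have p4 := hPH (H⁻¹ (H⁻¹ (H⁻¹ c))) hc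
    have b1 : P c ∈ A 1 ↔ ((H0⁻¹ (P c)).1 : ℕ) < k := by
      rw [← a0, ← a1]
      simp
    have b2 : P c ∈ A 2 ↔ ((H0⁻¹ (H0⁻¹ (P c))).1 : ℕ) < k := by
      rw [← a0, ← a1, ← a2]
      simp
    have b3 : P c ∈ A 3 ↔ ((H0⁻¹ (H0⁻¹ (H0⁻¹ (P c)))).1 : ℕ) < k := by
      rw [← a0, ← a1, ← a2, ← a3]
      simp
    have b4 : P c ∈ A 4 ↔ (((H0⁻¹ (H0⁻¹ (H0⁻¹ (H0⁻¹ (P c))))).1 : ℕ) < k ∧
        ((H0⁻¹ (H0⁻¹ (H0⁻¹ (H0⁻¹ (P c))))).2 : ℕ) < k) := by
      rw [← a4]
      simp
    intro i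
    fin_cases i
    · show W c = _
      rw [hWP]
      exact if_congr (a0 _).symm rfl rfl
    · show W (H⁻¹ c) = _
      rw [hWP, p1]
      exact if_congr b1.symm rfl rfl
    · show W (H⁻¹ (H⁻¹ c)) = _
      rw [hWP, p2, p1]
      exact if_congr b2.symm rfl rfl
    · show W (H⁻¹ (H⁻¹ (H⁻¹ c))) = _
      rw [hWP, p3, p2, p1]
      exact if_congr b3.symm rfl rfl
    · show W (H⁻¹ (H⁻¹ (H⁻¹ (H⁻¹ c)))) * W (S (H⁻¹ (H⁻¹ (H⁻¹ (H⁻¹ c))))) = _
      rw [hWP, hWS, p4, p3, p2, p1]
      show _ = if P c ∈ A 4 then (1 : F) else 0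
      rw [if_congr b4 rfl rfl]
      generalize H0⁻¹ (H0⁻¹ (H0⁻¹ (H0⁻¹ (P c)))) = w
      by_cases u1 : (w.1 : ℕ) < k
      · by_cases u2 : (w.2 : ℕ) < k
        · simp [u1, u2]
        · simp [u2]
      · simp [u1]
  obtain ⟨z, z1, z2, bad', z3, z4, z5⟩ := core (F := F) S T H W (B1 ∪ B2)
    (by
      intro c
      by_cases hc : (c.2 (x c.1) : ℕ) < k <;> simp [W, hc])
    (by
      intro c hc
      have hc1 : c.1 ∉ badG := by
        intro h
        exact hc (Finset.mem_union_left _ (Finset.mem_product.2 ⟨h, Finset.mem_univ _⟩))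
      have hc2 : x c.1 ≠ x (s c.1) → P c ∈ Finset.univ.biUnion A := by
        intro h
        by_contra h'
        exact hc (Finset.mem_union_right _ (Finset.mem_filter.2 ⟨Finset.mem_univ _, h, h'⟩))
      obtain ⟨x1, x2, x3, x4, x5, x6, x7, x8⟩ := hx c.1 hc1
      obtain ⟨g, y⟩ := c
      simp only at x1 x2 x3 x4 x5 x6 x7 x8 hc1 hc2
      have hHg : Hg g = Hab H0 (x g) (x (s g)) x1 := dif_pos x1
      have hPg := hc2 x1
      refine ⟨?_, ?_, ?_, ?_, ?_, ?_, ?_, ?_⟩
      · show (s (t (s⁻¹ (t (s (t⁻¹ g))))), y) = (s⁻¹ (t (s (t⁻¹ (s (t g))))), y)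
        rw [x8]
      · show (s (t g), Hg g y) = (s (t g), Hg (s (t g)) y)
        have x1' : x (s (t g)) ≠ x (s (s (t g))) := by rw [x4, x5]; exact x1
        have h2 : Hg (s (t g)) = Hab H0 (x (s (t g))) (x (s (s (t g)))) x1' := dif_pos x1'
        rw [hHg, h2]
        show (s (t g), upd (x g) (x (s g)) y (H0 (y (x g), y (x (s g))))) =
          (s (t g), upd (x (s (t g))) (x (s (s (t g)))) y
            (H0 (y (x (s (t g))), y (x (s (s (t g)))))))
        rw [x4, x5]
      · show (if (y (x (s (t g))) : ℕ) < k then (1 : F) else 0) = if (y (x g) : ℕ) < k then 1 else 0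
        rw [x4]
      · show (if (y (x (s⁻¹ (t g))) : ℕ) < k then (1 : F) else 0) =
          if (y (x (s⁻¹ g)) : ℕ) < k then 1 else 0
        rw [x6]
      · show (if (y (x (s⁻¹ (s⁻¹ (t (s (t⁻¹ g)))))) : ℕ) < k then (1 : F) else 0) =
          if (y (x (s⁻¹ g)) : ℕ) < k then 1 else 0
        rw [x7]
      · show (if (Hg g y (x (s⁻¹ g)) : ℕ) < k then (1 : F) else 0) =
          if (y (x (s⁻¹ g)) : ℕ) < k then 1 else 0
        rw [hHg]
        show (if (upd (x g) (x (s g)) y (H0 (y (x g), y (x (s g)))) (x (s⁻¹ g)) : ℕ) < k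
          then (1 : F) else 0) = if (y (x (s⁻¹ g)) : ℕ) < k then 1 else 0
        rw [upd_c _ _ _ (Ne.symm x2) (Ne.symm x3)]
      · intro i j hij
        rw [hEW (g, y) x1, hEW (g, y) x1]
        by_cases h1 : P (g, y) ∈ A i
        · have h2 : P (g, y) ∉ A j := Finset.disjoint_left.1 (ad i j hij) h1
          simp [h2]
        · simp [h1]
      · rw [hEW (g, y) x1, hEW (g, y) x1, hEW (g, y) x1, hEW (g, y) x1, hEW (g, y) x1]
        obtain ⟨i, _, hi⟩ := Finset.mem_biUnion.1 hPg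
        fin_cases i
        · have h := hi
          rw [if_pos (show P (g, y) ∈ A 0 from h)]
          ring
        · have h := hi
          rw [if_pos (show P (g, y) ∈ A 1 from h)]
          ring
        · have h := hi
          rw [if_pos (show P (g, y) ∈ A 2 from h)]
          ring
        · have h := hi
          rw [if_pos (show P (g, y) ∈ A 3 from h)]
          ring
        · have h := hi
          rw [if_pos (show P (g, y) ∈ A 4 from h)]
          ring)
  refine ⟨z, z1, ?_, bad', badG.card, B2.card, ?_, le_refl _, ?_, z4, z5⟩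
  · refine le_trans (Nat.mul_le_mul_left q z2) ?_
    have e1 : Nat.card {c : Z // W c ≠ 0} =
        (Finset.univ.filter (fun c : Z => (c.2 (x c.1) : ℕ) < k)).card := by
      rw [Nat.card_eq_fintype_card, Fintype.card_subtype]
      congr 1
      ext c
      simp [W]
    rw [e1]
    have e2 := Finset.card_le_card_of_injOn
      (s := (Finset.univ : Finset (Fin q)) ×ˢ
        (Finset.univ.filter (fun c : Z => (c.2 (x c.1) : ℕ) < k)))
      (t := Finset.range k ×ˢ (Finset.univ : Finset Z))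
      (fun p => ((p.2.2 (x p.2.1) : ℕ), (p.2.1, Function.update p.2.2 (x p.2.1) p.1)))
      (by
        rintro ⟨i, c⟩ hp
        have hp' : (c.2 (x c.1) : ℕ) < k := by simpa using hp
        simp [hp'])
      (by
        rintro ⟨i, ⟨g, y⟩⟩ _ ⟨i', ⟨g', y'⟩⟩ _ h
        have h1 : (y (x g) : ℕ) = (y' (x g') : ℕ) := congrArg Prod.fst h
        have h2 : g = g' := congrArg (fun p => p.2.1) h
        have h3 : Function.update y (x g) i = Function.update y' (x g') i' :=
          congrArg (fun p => p.2.2) h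
        clear h
        subst h2
        have h4 : i = i' := by
          have := congrFun h3 (x g)
          simpa using this
        have h5 : y = y' := by
          funext c
          by_cases hc : c = x g
          · subst hc
            exact Fin.ext h1
          · have := congrFun h3 c
            simpa [Function.update_of_ne hc] using this
        rw [h4, h5])
    rw [Finset.card_product, Finset.card_product, Finset.card_univ, Finset.card_univ,
      Fintype.card_fin, Finset.card_range] at e2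
    exact e2
  · rw [z3]
    refine le_trans (Finset.card_union_le _ _) ?_
    rw [Finset.card_product, Finset.card_univ]
  · have e2 := Finset.card_le_card_of_injOn
      (s := (Finset.univ : Finset (Fin q × Fin q)) ×ˢ B2)
      (t := (Finset.univ : Finset Z))
      (fun p => (p.2.1, upd (x p.2.1) (x (s p.2.1)) p.2.2 p.1))
      (by
        intro p _
        exact Finset.mem_univ _)
      (by
        rintro ⟨i, ⟨g, y⟩⟩ hp ⟨i', ⟨g', y'⟩⟩ hp' h
        have h2 : g = g' := congrArg Prod.fst h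
        have h3 : upd (x g) (x (s g)) y i = upd (x g') (x (s g')) y' i' := congrArg Prod.snd h
        clear h
        subst h2
        have hm := (Finset.mem_filter.1 (Finset.mem_product.1 hp).2).2
        have hm' := (Finset.mem_filter.1 (Finset.mem_product.1 hp').2).2
        obtain ⟨hg, hP1⟩ := hm
        obtain ⟨_, hP2⟩ := hm'
        simp only at hg
        have hPP : P (g, y) = P (g, y') := by
          refine Finset.card_le_one.1 ac _ ?_ _ ?_
          · exact Finset.mem_sdiff.2 ⟨Finset.mem_univ _, hP1⟩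
          · exact Finset.mem_sdiff.2 ⟨Finset.mem_univ _, hP2⟩
        have hPa : y (x g) = y' (x g) := congrArg Prod.fst hPP
        have hPb : y (x (s g)) = y' (x (s g)) := congrArg Prod.snd hPP
        have h4 : i = i' := by
          have u1 := congrFun h3 (x g)
          have u2 := congrFun h3 (x (s g))
          rw [upd_a, upd_a] at u1
          rw [upd_b _ _ hg, upd_b _ _ hg] at u2
          exact Prod.ext u1 u2
        have h5 : y = y' := by
          funext c
          by_cases hc : c = x g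
          · rw [hc]
            exact hPa
          · by_cases hd : c = x (s g)
            · rw [hd]
              exact hPb
            · have u1 := congrFun h3 c
              rw [upd_c _ _ _ hc hd, upd_c _ _ _ hc hd] at u1
              exact u1
        rw [h4, h5])
    rw [Finset.card_product, Finset.card_univ, Finset.card_univ, Fintype.card_prod,
      Fintype.card_fin] at e2
    exact e2

theorem st_UP (F : Type u) [Field F] (h1 : ST_FO) (h2 : ST_HH) (h3 : ST_CF) : ST_UP F := by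
  classical
  intro η hη
  obtain ⟨N, hN⟩ := exists_nat_gt (2 / η)
  have hN0 : (0 : ℝ) < N := lt_trans (by positivity) hN
  have hNpos : 0 < N := by exact_mod_cast hN0
  obtain ⟨q, k, hq, hkq, hpell, hval⟩ := h3 N
  obtain ⟨H0, A, a0, a1, a2, a3, a4, ad, ac⟩ := h2 q k hkq hpell
  obtain ⟨G, Y, iG, dG, iY, dY, nG, s, t, x, badG, hb, hx⟩ := h1 N hNpos
  have hqpos : 0 < q := lt_of_lt_of_le hNpos hq
  have : Nonempty (Fin q) := ⟨⟨0, hqpos⟩⟩
  obtain ⟨z, z1, z2, bad', m₁, m₂, z3, z4, z5, z6, z7⟩ :=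
    core2 F G Y s t x badG hx q k H0 A a0 a1 a2 a3 a4 ad ac
  have hZ : 0 < Fintype.card (G × (Y → Fin q)) := Fintype.card_pos
  refine ⟨Fintype.card (G × (Y → Fin q)), hZ, z, z1, ?_, bad', ?_, z6, z7⟩
  · have hq0 : (0 : ℝ) < q := by exact_mod_cast hqpos
    have e1 : (q : ℝ) * (z .e).rank ≤ k * (Fintype.card (G × (Y → Fin q)) : ℝ) := by
      exact_mod_cast z2
    have e2 : (k : ℝ) ≤ (Real.sqrt 5 - 2) * q := by
      rwa [div_le_iff₀ hq0] at hval
    have e3 : (0 : ℝ) ≤ (Fintype.card (G × (Y → Fin q)) : ℝ) := Nat.cast_nonneg _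
    have e4 := mul_le_mul_of_nonneg_right e2 e3
    have e5 : (q : ℝ) * (z .e).rank ≤
        q * ((Real.sqrt 5 - 2) * (Fintype.card (G × (Y → Fin q)) : ℝ)) := by
      calc (q : ℝ) * (z .e).rank ≤ k * (Fintype.card (G × (Y → Fin q)) : ℝ) := e1
        _ ≤ (Real.sqrt 5 - 2) * q * (Fintype.card (G × (Y → Fin q)) : ℝ) := e4
        _ = q * ((Real.sqrt 5 - 2) * (Fintype.card (G × (Y → Fin q)) : ℝ)) := by ring
    exact le_of_mul_le_mul_left e5 hq0
  · set C : ℕ := Fintype.card (Y → Fin q) with hC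
    have hcard : Fintype.card (G × (Y → Fin q)) = Fintype.card G * C := Fintype.card_prod _ _
    rw [hcard] at z5
    have hcR : ((Fintype.card (G × (Y → Fin q)) : ℕ) : ℝ) = (Fintype.card G : ℝ) * C := by
      rw [hcard]
      push_cast
      rfl
    have f1 : (bad'.card : ℝ) ≤ m₁ * C + m₂ := by exact_mod_cast z3
    have f2 : (m₁ : ℝ) * N ≤ Fintype.card G := by
      have : m₁ * N ≤ Fintype.card G := le_trans (Nat.mul_le_mul_right N z4) hb
      exact_mod_cast this
    have f3 : (m₂ : ℝ) * N ≤ Fintype.card G * C := by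
      have g1 : N ≤ q * q := le_trans hq (Nat.le_mul_self q)
      have : m₂ * N ≤ Fintype.card G * C := by
        calc m₂ * N ≤ m₂ * (q * q) := Nat.mul_le_mul_left _ g1
          _ = q * q * m₂ := by ring
          _ ≤ _ := z5
      exact_mod_cast this
    have hC0 : (0 : ℝ) ≤ C := Nat.cast_nonneg _
    have f4 : (m₁ : ℝ) * C * N ≤ Fintype.card G * C := by
      have := mul_le_mul_of_nonneg_right f2 hC0
      nlinarith [this]
    have f5 : (bad'.card : ℝ) * N ≤ 2 * (Fintype.card G * C) := by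
      have := mul_le_mul_of_nonneg_right f1 hN0.le
      nlinarith [this]
    have f6 : 2 ≤ η * N := by
      rw [div_lt_iff₀ hη] at hN
      nlinarith [hN]
    have f7 : (0 : ℝ) ≤ (Fintype.card G : ℝ) * C := by positivity
    have f8 : (bad'.card : ℝ) * N ≤ η * (Fintype.card G * C) * N := by
      have := mul_le_mul_of_nonneg_right f6 f7
      nlinarith [this]
    have f9 := le_of_mul_le_mul_right f8 hN0
    rw [hcR]
    exact f9

end Pool.Agent.Helper74.FR
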